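import Pool.Agent.Lib_helper52.EPS.Defs
import Pool.Agent.Lib_helper73.EPS.C0
set_option autoImplicit false

namespace Pool.Agent.EPS

open MeasureTheory Set Filter Topology

variable {G : Type*} [MeasureSpace G] [TopologicalSpace G] [AddCommGroup G]
  [IsTopologicalAddGroup G] [BorelSpace G] [SecondCountableTopology G] [LocallyCompactSpace G]
  [T2Space G] [(volume : Measure G).IsAddHaarMeasure]

theorem KK_smul {u : G → ℝ} (hu : Bdc u) (c : ℝ) (hc : 0 ≤ c) :
    Bdc (fun x => c * u x) ∧ KK (fun x => c * u x) = c * KK u := by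
  refine ⟨⟨hu.meas.const_mul c, fun x => mul_nonneg hc (hu.nn x), ?_, ?_⟩, ?_⟩
  · obtain ⟨M, hM⟩ := hu.bd
    exact ⟨c * M, fun x => mul_le_mul_of_nonneg_left (hM x) hc⟩
  · obtain ⟨K, hK, h⟩ := hu.supp
    exact ⟨K, hK, fun x hx => by rw [h x hx, mul_zero]⟩
  · unfold KK
    have h1 : ∫ x, Real.negMulLog (c * u x) =
        Real.negMulLog c * (∫ x, u x) + c * ∫ x, Real.negMulLog (u x) := by
      have h2 : (fun x => Real.negMulLog (c * u x)) =
          fun x => Real.negMulLog c * u x + c * Real.negMulLog (u x) := by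
        funext x
        rw [Real.negMulLog_mul]
        ring
      rw [h2, integral_add ((bdc_int hu).const_mul _) ((bdc_ent hu).const_mul _),
        integral_const_mul, integral_const_mul]
    rw [h1, integral_const_mul, Real.negMulLog_mul]
    ring

theorem cv_smul (u v : G → ℝ) (a b : ℝ) (t : G) :
    cv (fun x => a * u x) (fun x => b * v x) t = a * b * cv u v t := by
  unfold cv
  rw [← integral_const_mul]
  congr 1
  funext x
  ring

theorem KK_zero {u : G → ℝ} (hu : Bdc u) (h0 : ∫ x, u x = 0) : KK u = 0 := by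
  have h1 : u =ᵐ[volume] 0 := (integral_eq_zero_iff_of_nonneg hu.nn (bdc_int hu)).1 h0
  have h2 : ∫ x, Real.negMulLog (u x) = 0 := by
    have h3 : (fun x => Real.negMulLog (u x)) =ᵐ[volume] fun _ => 0 := by
      filter_upwards [h1] with x hx
      rw [hx]
      simp
    rw [integral_congr_ae h3, integral_zero]
  unfold KK
  rw [h2, h0]
  simp

/-- normalisation: it is enough to treat probability densities -/
theorem EP_of_one (n : ℝ) (h : ∀ u v : G → ℝ, Bdc u → Bdc v → ∫ x, u x = 1 → ∫ x, v x = 1 →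
    ∀ l : ℝ, 0 < l → l < 1 → l * (∫ x, Real.negMulLog (u x)) + (1 - l) *
      (∫ x, Real.negMulLog (v x)) + n / 2 * Real.binEntropy l ≤
      ∫ x, Real.negMulLog (cv u v x)) : EP G n := by
  intro u v hu hv l hl0 hl1
  have ha0 : 0 ≤ ∫ x, u x := integral_nonneg hu.nn
  have hb0 : 0 ≤ ∫ x, v x := integral_nonneg hv.nn
  have hcv := bdc_cv hu hv
  have hm := cv_mass hu hv
  rcases ha0.eq_or_lt with ha | ha
  · have h1 : KK (cv u v) = 0 := KK_zero hcv (by rw [hm, ← ha, zero_mul])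
    rw [h1, ← ha, KK_zero hu ha.symm]
    simp
  rcases hb0.eq_or_lt with hb | hb
  · have h1 : KK (cv u v) = 0 := KK_zero hcv (by rw [hm, ← hb, mul_zero])
    rw [h1, ← hb, KK_zero hv hb.symm]
    simp
  set a := ∫ x, u x with hadef
  set b := ∫ x, v x with hbdef
  obtain ⟨hu', hKu⟩ := KK_smul hu a⁻¹ (inv_nonneg.2 ha.le)
  obtain ⟨hv', hKv⟩ := KK_smul hv b⁻¹ (inv_nonneg.2 hb.le)
  have hu1 : ∫ x, a⁻¹ * u x = 1 := by
    rw [integral_const_mul, ← hadef]
    exact inv_mul_cancel₀ ha.ne'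
  have hv1 : ∫ x, b⁻¹ * v x = 1 := by
    rw [integral_const_mul, ← hbdef]
    exact inv_mul_cancel₀ hb.ne'
  have hmain := h _ _ hu' hv' hu1 hv1 l hl0 hl1
  have e1 : ∫ x, Real.negMulLog (a⁻¹ * u x) = a⁻¹ * KK u := by
    rw [← hKu]
    unfold KK
    rw [hu1]
    simp
  have e2 : ∫ x, Real.negMulLog (b⁻¹ * v x) = b⁻¹ * KK v := by
    rw [← hKv]
    unfold KK
    rw [hv1]
    simp
  obtain ⟨-, hKc⟩ := KK_smul hcv (a⁻¹ * b⁻¹) (mul_nonneg (inv_nonneg.2 ha.le) (inv_nonneg.2 hb.le))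
  have hcveq : (cv (fun x => a⁻¹ * u x) fun x => b⁻¹ * v x) =
      fun x => a⁻¹ * b⁻¹ * cv u v x := by
    funext t
    exact cv_smul u v a⁻¹ b⁻¹ t
  have e3 : ∫ x, Real.negMulLog (cv (fun x => a⁻¹ * u x) (fun x => b⁻¹ * v x) x) =
      a⁻¹ * b⁻¹ * KK (cv u v) := by
    rw [hcveq, ← hKc]
    unfold KK
    have h5 : ∫ x, a⁻¹ * b⁻¹ * cv u v x = 1 := by
      rw [integral_const_mul, hm]
      field_simp
    rw [h5]
    simp
  rw [e1, e2, e3] at hmain
  have hab : 0 < a * b := mul_pos ha hb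
  have hmul := mul_le_mul_of_nonneg_left hmain hab.le
  have e4 : a * b * (a⁻¹ * b⁻¹ * KK (cv u v)) = KK (cv u v) := by field_simp
  have e5 : a * b * (l * (a⁻¹ * KK u) + (1 - l) * (b⁻¹ * KK v) + n / 2 * Real.binEntropy l) =
      l * b * KK u + (1 - l) * a * KK v + n / 2 * Real.binEntropy l * (a * b) := by
    field_simp
  rw [e4, e5] at hmul
  exact hmul

end Pool.Agent.EPS
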